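import Pool.Agent.Run7.h198.QI.Defs

set_option autoImplicit false

/-!
Piece CEN of project QI.
-/

namespace Run7.h464.QI

open Pool.Agent.Run7.h198.QI

theorem mid_succ (n : ℕ) : (n + 1).choose ((n + 1) / 2) ≤ 2 * n.choose (n / 2) := by
  rcases Nat.eq_zero_or_pos ((n + 1) / 2) with h | h
  · rw [h, Nat.choose_zero_right]
    have : 0 < n.choose (n / 2) := Nat.choose_pos (Nat.div_le_self n 2)
    omega
  · obtain ⟨j, hj⟩ := Nat.exists_eq_succ_of_ne_zero h.ne'
    rw [hj, Nat.succ_eq_add_one, Nat.choose_succ_succ']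
    have h1 := Nat.choose_le_middle j n
    have h2 := Nat.choose_le_middle (j + 1) n
    omega

theorem mid_add (m r : ℕ) : (m + 2 * r).choose ((m + 2 * r) / 2) ≤ 4 ^ r * m.choose (m / 2) := by
  induction r with
  | zero => simp
  | succ r ih =>
    have h1 := mid_succ (m + 2 * r)
    have h2 := mid_succ (m + 2 * r + 1)
    have h3 : m + 2 * (r + 1) = m + 2 * r + 1 + 1 := by ring
    rw [h3, pow_succ]
    calc (m + 2 * r + 1 + 1).choose ((m + 2 * r + 1 + 1) / 2)
        ≤ 2 * (m + 2 * r + 1).choose ((m + 2 * r + 1) / 2) := h2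
      _ ≤ 2 * (2 * (m + 2 * r).choose ((m + 2 * r) / 2)) := Nat.mul_le_mul_left 2 h1
      _ ≤ 2 * (2 * (4 ^ r * m.choose (m / 2))) :=
          Nat.mul_le_mul_left 2 (Nat.mul_le_mul_left 2 ih)
      _ = 4 ^ r * 4 * m.choose (m / 2) := by ring

theorem t_CEN : S_CEN := by
  intro n r h
  obtain ⟨m, rfl⟩ := Nat.exists_eq_add_of_le' h
  rw [Nat.add_sub_cancel]
  exact mid_add m r

end Run7.h464.QI
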